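import Mathlib
import Pool.Agent.Lib.MP_23bd8d_gt.Sigma

/-!
MP_23bd8d_gt, partial result: if the closure of every discrete subset of `C_p(X)` is
Fréchet-Urysohn, then so is the closure of every countable union of discrete subsets.
The two corollaries give Q1 when `C_p(X)` has a dense sigma-discrete subset (for instance, is
separable) and when it has countable tightness.
-/

namespace Pool.Agent.Results.MP_23bd8d_gt.SigmaDiscrete

open Pool.Agent.Lib.MP_23bd8d_gt

theorem result (X : Type) [TopologicalSpace X]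
    (H : ∀ D : Set {f : X → ℝ | Continuous f},
      DiscreteTopology D → FrechetUrysohnSpace (closure D))
    (A : ℕ → Set {f : X → ℝ | Continuous f}) (hA : ∀ n, DiscreteTopology (A n)) :
    FrechetUrysohnSpace (closure (⋃ n, A n)) :=
  fu_sigma H A hA

theorem cor_dense (X : Type) [TopologicalSpace X]
    (H : ∀ D : Set {f : X → ℝ | Continuous f},
      DiscreteTopology D → FrechetUrysohnSpace (closure D))
    (A : ℕ → Set {f : X → ℝ | Continuous f}) (hA : ∀ n, DiscreteTopology (A n))
    (hd : Dense (⋃ n, A n)) : FrechetUrysohnSpace {f : X → ℝ | Continuous f} :=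
  ⟨fun Z g hg => (fu_iff _).1 (result X H A hA) Z (fun f _ => hd f) g (hd g) hg⟩

theorem cor_tightness (X : Type) [TopologicalSpace X]
    (H : ∀ D : Set {f : X → ℝ | Continuous f},
      DiscreteTopology D → FrechetUrysohnSpace (closure D))
    (ht : ∀ (Z : Set {f : X → ℝ | Continuous f}), ∀ g ∈ closure Z,
      ∃ B ⊆ Z, B.Countable ∧ g ∈ closure B) :
    FrechetUrysohnSpace {f : X → ℝ | Continuous f} := by
  refine ⟨fun Z g hg => ?_⟩
  obtain ⟨B, hBZ, hB, hgB⟩ := ht Z g hg
  obtain ⟨b, rfl⟩ := hB.exists_eq_range (closure_nonempty_iff.1 ⟨g, hgB⟩)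
  have h := result X H (fun n => {b n}) (fun n => inferInstance)
  rw [Set.iUnion_singleton_eq_range] at h
  obtain ⟨u, hu, hu'⟩ := (fu_iff _).1 h _ subset_closure g hgB hgB
  exact ⟨u, fun n => hBZ (hu n), hu'⟩

end Pool.Agent.Results.MP_23bd8d_gt.SigmaDiscrete
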