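import Pool.Agent.Lib.MP_23bd8d_gt.Small

/-!
MP_23bd8d_gt, partial result: Q1 has a positive answer for every space whose finite powers have
discrete subsets as large as their right-separated subsets of regular uncountable type.
-/

namespace Pool.Agent.Results.MP_23bd8d_gt.Spread

open Pool.Agent.Lib.MP_23bd8d_gt

theorem result (X : Type) [TopologicalSpace X] [T35Space X]
    (H : ∀ D : Set {f : X → ℝ | Continuous f},
      DiscreteTopology D → FrechetUrysohnSpace (closure D))
    (hS : ∀ κ : Cardinal, κ.IsRegular → Cardinal.aleph0 < κ →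
      ∀ (n : ℕ) (x : κ.ord.ToType → Fin n → X), (∀ a, x a ∉ closure (x '' Set.Ioi a)) →
      ∃ (m : ℕ) (D : Set (Fin m → X)), DiscreteTopology D ∧ κ ≤ Cardinal.mk D) :
    FrechetUrysohnSpace {f : X → ℝ | Continuous f} :=
  fu_of_no_S H hS

end Pool.Agent.Results.MP_23bd8d_gt.Spread
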