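import Pool.Agent.Lib.MP_23bd8d_gt.Strong

/-!
MP_23bd8d_gt, partial result: a counterexample to Q1 with at most `ℵ₁` points exists if and only if
there is a strong S-space.
-/

namespace Pool.Agent.Results.MP_23bd8d_gt.StrongS

open Pool.Agent.Lib.MP_23bd8d_gt

theorem result :
    (∃ (X : Type) (_ : TopologicalSpace X), T35Space X ∧ Cardinal.mk X ≤ Cardinal.aleph 1 ∧
      (∀ D : Set {f : X → ℝ | Continuous f},
        DiscreteTopology D → FrechetUrysohnSpace (closure D)) ∧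
      ¬ FrechetUrysohnSpace {f : X → ℝ | Continuous f}) ↔
    ∃ (Y : Type) (_ : TopologicalSpace Y), T35Space Y ∧
      (∀ (n : ℕ) (s : Set (Fin n → Y)), TopologicalSpace.SeparableSpace s) ∧
      ¬ HereditarilyLindelofSpace Y :=
  ⟨fun ⟨_, _, _, a, b, c⟩ =>
      let ⟨Y, t, p, q, r⟩ := strongS_of a b c
      ⟨Y, t, p, fun n => hs_iff.1 (q n), r⟩,
    fun ⟨_, _, _, a, b⟩ => of_strongS (fun n => hs_iff.2 (a n)) b⟩

end Pool.Agent.Results.MP_23bd8d_gt.StrongS
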